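import Mathlib
import Pool.Agent.P.MP_2e654e_an.RMain

set_option autoImplicit false

open MeasureTheory

namespace Pool.Agent.Results.MP_2e654e_an.DeBruijnClass

open Pool.Agent.P.MP_2e654e_an.Rigid

/-- For every strip width `Δ` and every `Λ < Δ^2/2` there is an even nonnegative kernel of doubly
exponential decay whose Fourier transform `f` meets all hypotheses of the question, while the
heat-flow deformation of `f` has infinitely many non-real zeros for every `0 < λ ≤ Λ`. -/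
theorem result :
    ∀ Δ Λ : ℝ, 0 < Δ → Λ < Δ ^ 2 / 2 →
      ∃ Φ : ℝ → ℝ, Measurable Φ ∧ (∀ t : ℝ, 0 ≤ Φ t) ∧ (∀ t : ℝ, Φ (-t) = Φ t) ∧
        (∃ C : ℝ, ∀ t : ℝ, Φ t ≤ C * Real.exp (-Real.exp |t|)) ∧
        ∃ f : ℂ → ℂ, (∀ z : ℂ, f z = ∫ t : ℝ, (Φ t : ℂ) * Complex.exp (Complex.I * t * z)) ∧
          Differentiable ℂ f ∧
          (∀ x : ℝ, (f (x : ℂ)).im = 0) ∧
          (∀ z : ℂ, f (-z) = f z) ∧
          (∀ ε : ℝ, 0 < ε → ∃ R : ℝ, ∀ z : ℂ, R ≤ ‖z‖ → ‖f z‖ ≤ Real.exp (‖z‖ ^ (1 + ε))) ∧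
          (∀ C R : ℝ, ∃ z : ℂ, R ≤ ‖z‖ ∧ Real.exp (C * ‖z‖) < ‖f z‖) ∧
          (∀ z : ℂ, f z = 0 → |z.im| < Δ) ∧
          ∀ lam : ℝ, 0 < lam → lam ≤ Λ →
            ∃ g : ℂ → ℂ,
              (∀ z : ℂ, HasSum (fun k : ℕ =>
                (-(lam : ℂ)) ^ k / ((Nat.factorial k : ℕ) : ℂ) * iteratedDeriv (2 * k) f z) (g z)) ∧
              {z : ℂ | g z = 0 ∧ z.im ≠ 0}.Infinite := by
  intro Δ Λ hΔ hΛ
  have h1 : max Λ 0 < Δ ^ 2 / 2 := max_lt hΛ (by positivity)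
  obtain ⟨d, hd0, hdΔ, hd⟩ : ∃ d : ℝ, 0 < d ∧ d < Δ ∧ max Λ 0 < d ^ 2 / 2 := by
    have hs : √(2 * max Λ 0) < Δ := (Real.sqrt_lt' hΔ).2 (by linarith)
    have h0 := Real.sqrt_nonneg (2 * max Λ 0)
    have h2 := Real.sq_sqrt (show 0 ≤ 2 * max Λ 0 by linarith [le_max_right Λ 0])
    refine ⟨(√(2 * max Λ 0) + Δ) / 2, by linarith, by linarith, ?_⟩
    nlinarith
  obtain ⟨ε, η, e0, e1, h0, h1, hz⟩ := infinite_zeros hd0 (le_max_right Λ 0) hd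
  have hc : 0 ≤ Real.cosh (ε * d) := (Real.cosh_pos _).le
  have hε : |ε| ≤ 1 := by rwa [abs_of_pos e0]
  have hG := Ph_good hc h0 h1 hε
  obtain ⟨C, hC⟩ := hG.2
  refine ⟨Ph (Real.cosh (ε * d)) ε η, hG.1, Ph_nonneg hc ε η, Ph_even _ ε η,
    ⟨C, fun t => (le_abs_self _).trans (hC t)⟩, FT fun t => (Ph (Real.cosh (ε * d)) ε η t : ℂ),
    fun _ => rfl, hG.kk0.diff, FT_real (Ph_even _ ε η), FT_even (Ph_even _ ε η),
    f_order hc h0 h1 hε, f_type hc h0 h1 hε, fun z h => (f_zero hd0 h0 h1 e0 e1 h).trans_lt hdΔ,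
    fun lam l0 l1 => ⟨_, hG.heat l0.le, hz lam l0.le (l1.trans (le_max_left _ _))⟩⟩

end Pool.Agent.Results.MP_2e654e_an.DeBruijnClass
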