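import Mathlib
import Pool.Agent.P.MP_2e654e_an.DenN

set_option autoImplicit false

namespace Pool.Agent.Results.MP_2e654e_an.ExactCriterion

open Pool.Agent.P.MP_2e654e_an.Den

/-- Exact criterion. Let `f` be a real entire function of growth at most order two, minimal type,
with all zeros in a horizontal strip. The heat-flow deformations of `f` have, for every positive
time, only finitely many non-real or multiple zeros if and only if the smoothed number of zeros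
of `f` near `ρ` tends to infinity as `ρ` tends to infinity through the zeros that stay at a fixed
distance from the real axis. -/
theorem result :
    ∀ f : ℂ → ℂ, Differentiable ℂ f →
      (∀ x : ℝ, (f (x : ℂ)).im = 0) →
      (∀ ε : ℝ, 0 < ε → ∃ R : ℝ, ∀ z : ℂ, R ≤ ‖z‖ → ‖f z‖ ≤ Real.exp (ε * ‖z‖ ^ 2)) →
      ∀ Δ : ℝ, (∀ z : ℂ, f z = 0 → |z.im| ≤ Δ) →
      ((∀ lam : ℝ, 0 < lam → ∀ g : ℂ → ℂ,
          (∀ z : ℂ, g z = ∑' k : ℕ,
            (-(lam : ℂ)) ^ k / ((Nat.factorial k : ℕ) : ℂ) * iteratedDeriv (2 * k) f z) →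
          {z : ℂ | g z = 0 ∧ (z.im ≠ 0 ∨ deriv g z = 0)}.Finite) ↔
        ∀ δ : ℝ, 0 < δ → ∀ K : ℝ,
          {ρ : ℂ | f ρ = 0 ∧ δ ≤ |ρ.im| ∧ ∑' a : {a : ℂ // f a = 0},
            (analyticOrderNatAt f (a : ℂ) : ℝ) / (1 + ‖ρ - (a : ℂ)‖ ^ 2) ≤ K}.Finite) := by
  intro f hd hr hg Δ hz
  have hΔ : 0 < |Δ| + 1 := by positivity
  have hf : Cl (|Δ| + 1) f := ⟨hd, gr_of_ev hd hg, fun a ha => by
    linarith [hz a ha, le_abs_self Δ], conj_of_real hd hr⟩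
  rw [← hyp_iff hf hΔ, ← exact_crit hf hΔ]
  refine forall₂_congr fun lam _ => ⟨fun H => H (heat lam f) fun _ => rfl, fun H g e => ?_⟩
  obtain rfl : g = heat lam f := funext e
  exact H

/-- Not claimed: both series in `result` converge under its hypotheses. -/
theorem converge (f : ℂ → ℂ) (hd : Differentiable ℂ f)
    (hg : ∀ ε : ℝ, 0 < ε → ∃ R : ℝ, ∀ z : ℂ, R ≤ ‖z‖ → ‖f z‖ ≤ Real.exp (ε * ‖z‖ ^ 2))
    (Δ : ℝ) (hz : ∀ z : ℂ, f z = 0 → |z.im| ≤ Δ) :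
    (∀ lam : ℝ, 0 < lam → ∀ z : ℂ, Summable fun k : ℕ =>
      (-(lam : ℂ)) ^ k / ((Nat.factorial k : ℕ) : ℂ) * iteratedDeriv (2 * k) f z) ∧
    ∀ ρ : ℂ, f ρ = 0 → Summable fun a : {a : ℂ // f a = 0} =>
      (analyticOrderNatAt f (a : ℂ) : ℝ) / (1 + ‖ρ - (a : ℂ)‖ ^ 2) :=
  ⟨fun _ hl z => summable_hterm hd (gr_of_ev hd hg) hl z, fun ρ h =>
    ((exists_had (Δ := |Δ| + 1) hd (gr_of_ev hd hg) fun a ha => by
      linarith [hz a ha, le_abs_self Δ]).cmp (by positivity)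
        (by linarith [hz ρ h, le_abs_self Δ])).1⟩

/-- Not claimed: the growth bound of the posed question implies the one in `result`. -/
theorem posed (f : ℂ → ℂ)
    (h : ∀ ε : ℝ, 0 < ε → ∃ R : ℝ, ∀ z : ℂ, R ≤ ‖z‖ → ‖f z‖ ≤ Real.exp (‖z‖ ^ (1 + ε)))
    (ε : ℝ) (hε : 0 < ε) : ∃ R : ℝ, ∀ z : ℂ, R ≤ ‖z‖ → ‖f z‖ ≤ Real.exp (ε * ‖z‖ ^ 2) := by
  obtain ⟨R, hR⟩ := h (1 / 2) (by norm_num)
  refine ⟨max R (1 / ε ^ 2), fun z hz => (hR z ((le_max_left _ _).trans hz)).trans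
    (Real.exp_le_exp.mpr ?_)⟩
  have h1 : 1 / ε ^ 2 ≤ ‖z‖ := (le_max_right _ _).trans hz
  have h2 : 0 < ‖z‖ := lt_of_lt_of_le (by positivity) h1
  have h3 : 1 ≤ ε * √‖z‖ := by
    rw [← div_le_iff₀' hε]
    exact Real.le_sqrt_of_sq_le (by simpa using h1)
  rw [Real.rpow_add h2, Real.rpow_one, ← Real.sqrt_eq_rpow]
  calc _ ≤ ‖z‖ * √‖z‖ * (ε * √‖z‖) := le_mul_of_one_le_right (by positivity) h3
    _ = ε * ‖z‖ * (√‖z‖ * √‖z‖) := by ring
    _ = _ := by rw [Real.mul_self_sqrt h2.le]; ring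

end Pool.Agent.Results.MP_2e654e_an.ExactCriterion
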